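import Pool.Agent.H19.KL.Stmts2

/-!
# Module MOK: moments of linear functionals on a symmetric body
-/

set_option autoImplicit false

open MeasureTheory Set
open scoped ContDiff

namespace Pool.Agent.H19.KL

open Pool.Agent.H84 Pool.Agent.H84.Sym Pool.Agent.H84.Sym.P2x Pool.Agent.H84.Sym.C29
open Pool.Agent.H73.Lp

namespace MOK

theorem summable_momC {b : ℝ} (hb : 0 ≤ b) :
    Summable (fun k : ℕ => (2 * ((k:ℝ) + 1)) ^ b / 2 ^ k) := by
  obtain ⟨n, hn⟩ := exists_nat_ge b
  have h1 : Summable (fun k : ℕ => ((k:ℝ)) ^ n * (1 / 2 : ℝ) ^ k) :=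
    summable_pow_mul_geometric_of_norm_lt_one n (by norm_num)
  have h2 : Summable (fun k : ℕ => (((k + 1 : ℕ) : ℝ)) ^ n * (1 / 2 : ℝ) ^ (k + 1)) :=
    (summable_nat_add_iff (f := fun k : ℕ => ((k:ℝ)) ^ n * (1 / 2 : ℝ) ^ k) 1).2 h1
  have h3 := h2.mul_left (2 ^ n * 2)
  refine Summable.of_nonneg_of_le (fun k => by positivity) (fun k => ?_) h3
  have h4 : (2 * ((k:ℝ) + 1)) ^ b ≤ (2 * ((k:ℝ) + 1)) ^ n := by
    rw [← Real.rpow_natCast]
    apply Real.rpow_le_rpow_of_exponent_le _ hn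
    have : (0:ℝ) ≤ k := Nat.cast_nonneg k
    linarith
  calc (2 * ((k:ℝ) + 1)) ^ b / 2 ^ k ≤ (2 * ((k:ℝ) + 1)) ^ n / 2 ^ k := by gcongr
    _ = _ := by
      push_cast
      rw [mul_pow, one_div, inv_pow, pow_succ (2:ℝ) k]
      field_simp

theorem momC_le {b : ℝ} (hb : 0 ≤ b) (N : ℕ) :
    ∑ k ∈ Finset.range N, (2 * ((k:ℝ) + 1)) ^ b / 2 ^ k ≤ momC b :=
  (summable_momC hb).sum_le_tsum _ (fun k _ => by positivity)

theorem shells {b y : ℝ} (hb : 0 ≤ b) (hy : 0 ≤ y) {N : ℕ} (hN : y < 2 * N) :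
    y ^ b ≤ ∑ k ∈ Finset.range N, (if (k:ℝ) * 2 ≤ y then (2 * ((k:ℝ) + 1)) ^ b else 0) := by
  have hk : ⌊y / 2⌋₊ ∈ Finset.range N := by
    rw [Finset.mem_range, Nat.floor_lt (by positivity)]
    linarith
  refine le_trans ?_ (Finset.single_le_sum (f := fun k : ℕ =>
    (if (k:ℝ) * 2 ≤ y then (2 * ((k:ℝ) + 1)) ^ b else 0)) (fun k _ => ?_) hk)
  · have h1 : ((⌊y / 2⌋₊ : ℕ) : ℝ) * 2 ≤ y := by
      have := Nat.floor_le (a := y / 2) (by positivity)
      linarith
    have h2 : y ≤ 2 * (((⌊y / 2⌋₊ : ℕ) : ℝ) + 1) := by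
      have := Nat.lt_floor_add_one (y / 2)
      linarith
    simp only [if_pos h1]
    exact Real.rpow_le_rpow hy h2 hb
  · split_ifs
    · positivity
    · exact le_rfl

variable {E : Type*} [NormedAddCommGroup E] [InnerProductSpace ℝ E]
    [FiniteDimensional ℝ E] [MeasurableSpace E] [BorelSpace E]

/-- exponential decay of the tails -/
theorem decay {K : Set E} {R : ℝ} (hK : CB K R) (hsymm : ∀ x ∈ K, -x ∈ K) {v : E} (hv : v ≠ 0)
    (k : ℕ) : volume.real (K ∩ {x | k * (2 * m1 K v) ≤ |inner ℝ v x|}) ≤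
      volume.real K / 2 ^ k := by
  have hm := m1_pos hK hv
  have hV := SMB.vol_pos hK
  have ht : 0 < 2 * m1 K v := by linarith
  obtain ⟨θ, hθ⟩ : ∃ θ : ℝ, θ = 2 * SMB.hv K v (2 * m1 K v) / volume.real K := ⟨_, rfl⟩
  have hθ0 : 0 ≤ θ := by
    rw [hθ]
    exact div_nonneg (mul_nonneg (by norm_num) (SMB.hv_nonneg v _)) hV.le
  have hθ1 : 2 * SMB.hv K v (2 * m1 K v) = θ * volume.real K := by
    rw [hθ, div_mul_cancel₀ _ hV.ne']
  have hmar : 2 * m1 K v * volume.real (K ∩ {x | 2 * m1 K v ≤ |inner ℝ v x|}) ≤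
      m1 K v * volume.real K := by
    have h1 : ∫ x in K, {x : E | 2 * m1 K v ≤ |inner ℝ v x|}.indicator
        (fun _ => 2 * m1 K v) x ≤ ∫ x in K, |inner ℝ v x| := by
      apply setIntegral_mono_on _ (SMB.int_abs hK v) hK.meas
      · intro x _
        by_cases h : 2 * m1 K v ≤ |inner ℝ v x|
        · rw [indicator_of_mem (by exact h)]
          exact h
        · rw [indicator_of_notMem (by exact h)]
          exact abs_nonneg _
      · apply IntegrableOn.indicator _ (measurableSet_le measurable_const (by fun_prop))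
        exact integrableOn_const hK.lt_top.ne
    rw [setIntegral_indicator (measurableSet_le measurable_const (by fun_prop)),
      setIntegral_const, smul_eq_mul] at h1
    have h2 : ∫ x in K, |inner ℝ v x| = m1 K v * volume.real K := by
      unfold m1
      rw [div_mul_cancel₀ _ hV.ne']
    linarith
  rw [SMB.abs_eq_two hK hsymm v ht, hθ1] at hmar
  have hθ2 : θ ≤ 1 / 2 := by
    have : 0 < m1 K v * volume.real K := mul_pos hm hV
    have h3 : (2 * θ) * (m1 K v * volume.real K) ≤ 1 * (m1 K v * volume.real K) := by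
      linarith
    have := le_of_mul_le_mul_right h3 this
    linarith
  calc volume.real (K ∩ {x | k * (2 * m1 K v) ≤ |inner ℝ v x|}) ≤ θ ^ k * volume.real K :=
        SMB.abs_decay hK hsymm v ht hθ0 hθ1 k
    _ ≤ (1 / 2) ^ k * volume.real K := by gcongr
    _ = _ := by
      rw [one_div, inv_pow]
      field_simp

end MOK

/-- MOK: moments of linear functionals on a symmetric body. -/
theorem mok_thm (E : Type) [NormedAddCommGroup E] [InnerProductSpace ℝ E]
    [FiniteDimensional ℝ E] [MeasurableSpace E] [BorelSpace E] : MOKStmt E := by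
  intro K R v hK hsymm hv b hb
  have hm := m1_pos hK hv
  have hV := SMB.vol_pos hK
  have hc : Continuous (XF K v b) := by
    have hc1 : Continuous (fun x : E => |inner ℝ v x| / m1 K v) := by fun_prop
    refine continuous_iff_continuousAt.2 fun x => ?_
    exact (Real.continuousAt_rpow_const _ _ (Or.inr hb)).comp hc1.continuousAt
  have hi : IntegrableOn (XF K v b) K := (hK.bm_of_cont hc).integrableOn hK
  refine ⟨hi, ?_⟩
  obtain ⟨M, hM⟩ := hK.bdd_of_cont (f := fun x => inner ℝ v x) (by fun_prop)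
  obtain ⟨N, hN⟩ := exists_nat_gt (M / (2 * m1 K v))
  have hpt : ∀ x ∈ K, XF K v b x ≤ ∑ k ∈ Finset.range N,
      ({x : E | (k:ℝ) * (2 * m1 K v) ≤ |inner ℝ v x|}.indicator
        (fun _ => (2 * ((k:ℝ) + 1)) ^ b) x) := by
    intro x hx
    have h1 : |inner ℝ v x| / m1 K v < 2 * N := by
      rw [div_lt_iff₀ (by linarith)] at hN
      rw [div_lt_iff₀ hm]
      have := hM x hx
      calc |inner ℝ v x| ≤ M := this
        _ < _ := hN
        _ = _ := by ring
    have h2 := MOK.shells hb (by positivity) h1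
    unfold XF
    refine h2.trans (le_of_eq ?_)
    apply Finset.sum_congr rfl
    intro k _
    have e : ((k:ℝ) * 2 ≤ |inner ℝ v x| / m1 K v) ↔ (k:ℝ) * (2 * m1 K v) ≤ |inner ℝ v x| := by
      rw [le_div_iff₀ hm, mul_assoc]
    simp only [indicator_apply, mem_ofPred_eq, e]
  have hindi : ∀ k : ℕ, IntegrableOn (fun x : E =>
      {x : E | (k:ℝ) * (2 * m1 K v) ≤ |inner ℝ v x|}.indicator
        (fun _ => (2 * ((k:ℝ) + 1)) ^ b) x) K := by
    intro k
    apply IntegrableOn.indicator _ (measurableSet_le measurable_const (by fun_prop))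
    exact integrableOn_const hK.lt_top.ne
  calc ∫ x in K, XF K v b x ≤ ∫ x in K, ∑ k ∈ Finset.range N,
        ({x : E | (k:ℝ) * (2 * m1 K v) ≤ |inner ℝ v x|}.indicator
          (fun _ => (2 * ((k:ℝ) + 1)) ^ b) x) :=
        setIntegral_mono_on hi (integrable_finsetSum _ fun k _ => hindi k) hK.meas hpt
    _ = ∑ k ∈ Finset.range N, ∫ x in K,
        ({x : E | (k:ℝ) * (2 * m1 K v) ≤ |inner ℝ v x|}.indicator
          (fun _ => (2 * ((k:ℝ) + 1)) ^ b) x) :=
        integral_finsetSum _ (fun k _ => hindi k)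
    _ ≤ ∑ k ∈ Finset.range N, (2 * ((k:ℝ) + 1)) ^ b / 2 ^ k * volume.real K := by
        apply Finset.sum_le_sum
        intro k _
        rw [setIntegral_indicator (measurableSet_le measurable_const (by fun_prop)),
          setIntegral_const, smul_eq_mul]
        calc volume.real (K ∩ {x | (k:ℝ) * (2 * m1 K v) ≤ |inner ℝ v x|}) *
              (2 * ((k:ℝ) + 1)) ^ b ≤ volume.real K / 2 ^ k * (2 * ((k:ℝ) + 1)) ^ b :=
              mul_le_mul_of_nonneg_right (MOK.decay hK hsymm hv k) (by positivity)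
          _ = _ := by ring
    _ = (∑ k ∈ Finset.range N, (2 * ((k:ℝ) + 1)) ^ b / 2 ^ k) * volume.real K := by
        rw [Finset.sum_mul]
    _ ≤ _ := mul_le_mul_of_nonneg_right (MOK.momC_le hb N) hV.le

end Pool.Agent.H19.KL
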